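import Pool.Agent.Lib.MP_97409a_pr.ZeroWaitLaw
import Pool.Agent.Lib.MP_97409a_pr.TwoPoint

/-!
# The conjectured sharp lower bound for the mean waiting time in GI/GI/k fails

For every number `k ≥ 2` of servers, every traffic intensity `1 - 1/k < ρ < 1` and every
admissible second moment of the interarrival time there is an explicit nonempty open interval of
second moments of the service time for which the class of queues with these moments contains a
queue whose waiting times vanish, while the conjectured lower bound is positive.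
-/

open MeasureTheory
open scoped ENNReal
open Pool.Agent.Lib.MP_97409a_pr

namespace Pool.Agent.Results.MP_97409a_pr.BoundFails

/-- The moments `ET, ES, ET2, ES2` are the first two moments of some nonnegative `T` and `S`
with positive means. -/
def Admissible (ET ES ET2 ES2 : ℝ) : Prop := 0 < ET ∧ 0 < ES ∧ ET ^ 2 ≤ ET2 ∧ ES ^ 2 ≤ ES2

/-- The values of the stationary mean waiting time `E W₁` over the class `Q₂` of `k`-server
queues with the given first two moments. -/
def waitValues (k : ℕ) [NeZero k] (ET ES ET2 ES2 : ℝ) : Set ℝ≥0∞ :=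
  {W | ∃ (σ τ : Measure ℝ) (π : Measure (Fin k → ℝ)), HasMoments σ ES ES2 ∧
    HasMoments τ ET ET2 ∧ IsStationary σ τ π ∧ W = meanWait π}

/-- The left side `2 k² ρ (1 - ρ) ET · W` of the conjectured inequality, `ρ = ES / (k ET)`. -/
noncomputable def conjLHS (k : ℕ) (ET ES : ℝ) (W : ℝ≥0∞) : ℝ≥0∞ :=
  ENNReal.ofReal (2 * k ^ 2 * (ES / (k * ET)) * (1 - ES / (k * ET)) * ET) * W

/-- The right side `[1 - k (1 - ρ)] · [ES² - (2k-1) ES ET + k (k-1) (ET)²]_+` of the conjectured
inequality. -/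
noncomputable def conjRHS (k : ℕ) (ET ES ES2 : ℝ) : ℝ :=
  (1 - k * (1 - ES / (k * ET))) * max (ES2 - (2 * k - 1) * ES * ET + k * (k - 1) * ET ^ 2) 0

/-- Part (a): every queue in `Q₂` satisfies the inequality. -/
def PartA (k : ℕ) [NeZero k] (ET ES ET2 ES2 : ℝ) : Prop :=
  ∀ W ∈ waitValues k ET ES ET2 ES2, ENNReal.ofReal (conjRHS k ET ES ES2) ≤ conjLHS k ET ES W

/-- Part (b): the bound is the infimum over `Q₂`. -/
def PartB (k : ℕ) [NeZero k] (ET ES ET2 ES2 : ℝ) : Prop :=
  sInf (conjLHS k ET ES '' waitValues k ET ES ET2 ES2) = ENNReal.ofReal (conjRHS k ET ES ES2)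

/-- Zero-wait queues with prescribed moments. -/
theorem exists_zero_wait (k : ℕ) [NeZero k] (ET ES ET2 ES2 : ℝ) (hET : 0 < ET) (hES : 0 < ES)
    (hT : ET ^ 2 ≤ ET2) (hS : ES ^ 2 < ES2) (h : ES2 < k * ES * ET) :
    ∃ σ τ : Measure ℝ, HasMoments σ ES ES2 ∧ HasMoments τ ET ET2 ∧
      (∃ π : Measure (Fin k → ℝ), IsStationary σ τ π) ∧
      ∀ π : Measure (Fin k → ℝ), IsStationary σ τ π → meanWait π = 0 := by
  have hk0 : (0 : ℝ) < k := by
    have := NeZero.ne k
    positivity
  have hES2 : 0 < ES2 := lt_of_le_of_lt (sq_nonneg _) hS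
  -- the interarrival time: two-point law on `t₀ < ET ≤ N`
  set t₀ := ES2 / (k * ES) with ht₀
  have ht₀pos : 0 < t₀ := by positivity
  have ht₀ET : t₀ < ET := by
    rw [ht₀, div_lt_iff₀ (by positivity)]
    linarith
  set v := ET2 - ET ^ 2 with hv
  have hv0 : 0 ≤ v := by linarith
  set N := ET + v / (ET - t₀) with hN
  have hd : 0 < ET - t₀ := by linarith
  have hNET : ET ≤ N := by
    have : 0 ≤ v / (ET - t₀) := div_nonneg hv0 hd.le
    linarith
  have hNt : 0 < N - t₀ := by linarith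
  set ε := (ET - t₀) / (N - t₀) with hε
  have hε0 : 0 ≤ ε := div_nonneg hd.le hNt.le
  have hε1 : ε ≤ 1 := by
    rw [hε, div_le_one hNt]
    linarith
  have hεN : ε * (N - t₀) = ET - t₀ := by
    rw [hε]; field_simp
  have hvN : (ET - t₀) * (N - ET) = v := by
    rw [hN]; field_simp; ring
  -- the service time: two-point law on `0` and `s₀ = k t₀`
  set s₀ := ES2 / ES with hs₀
  have hs₀t : s₀ = k * t₀ := by
    rw [hs₀, ht₀]; field_simp
  have hs₀pos : 0 < s₀ := by positivity
  set q := ES ^ 2 / ES2 with hq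
  have hq0 : 0 ≤ q := by positivity
  have hq1 : q < 1 := by
    rw [hq, div_lt_one hES2]; exact hS
  have mS : HasMoments (twoPoint 0 s₀ q) ES ES2 := by
    have := twoPoint_hasMoments (a := 0) (b := s₀) le_rfl hs₀pos.le hq0 hq1.le
    have e1 : (1 - q) * 0 + q * s₀ = ES := by
      rw [hq, hs₀]; field_simp; ring
    have e2 : (1 - q) * 0 ^ 2 + q * s₀ ^ 2 = ES2 := by
      rw [hq, hs₀]; field_simp; ring
    rw [e1, e2] at this
    exact this
  have mT : HasMoments (twoPoint t₀ N ε) ET ET2 := by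
    have := twoPoint_hasMoments (a := t₀) (b := N) ht₀pos.le (by linarith) hε0 hε1
    have e1 : (1 - ε) * t₀ + ε * N = ET := by linarith
    have e2 : (1 - ε) * t₀ ^ 2 + ε * N ^ 2 = ET2 := by
      have : (1 - ε) * t₀ ^ 2 + ε * N ^ 2 = t₀ ^ 2 + (ε * (N - t₀)) * (N + t₀) := by ring
      rw [this, hεN]
      nlinarith
    rw [e1, e2] at this
    exact this
  haveI := mS.prob
  haveI := mT.prob
  have aS : ∀ᵐ s ∂(twoPoint 0 s₀ q), s ≤ k * t₀ := by
    refine twoPoint_ae measurableSet_Iic ?_ ?_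
    · positivity
    · rw [hs₀t]
  have aT : ∀ᵐ t ∂(twoPoint t₀ N ε), t₀ ≤ t := by
    refine twoPoint_ae measurableSet_Ici le_rfl (by linarith)
  have h0 : (twoPoint 0 s₀ q) {0} ≠ 0 := by
    unfold twoPoint
    simp only [Measure.coe_add, Measure.coe_smul, Pi.add_apply, Pi.smul_apply, smul_eq_mul]
    intro h
    have h1 := (add_eq_zero.mp h).1
    simp at h1
    linarith
  refine ⟨twoPoint 0 s₀ q, twoPoint t₀ N ε, mS, mT, ?_, ?_⟩
  · obtain ⟨n, rfl⟩ : ∃ n, k = n + 1 :=
      ⟨k - 1, (Nat.succ_pred_eq_of_ne_zero (NeZero.ne k)).symm⟩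
    exact ⟨_, exists_stationary ht₀pos.le aS aT⟩
  · intro π hπ
    exact meanWait_eq_zero ht₀pos aS aT h0 hπ

/-- **The conjecture fails for every `k ≥ 2` and every `1 - 1/k < ρ < 1`.**  For all
`k ≥ 2`, all means with `1 - 1/k < ρ = ES / (k ET) < 1` and every admissible `ET2`, the interval
of second moments `(2k-1) ES ET - k (k-1) ET² < ES2 < k ES ET` is not empty, and for each `ES2` in
it: the moments are admissible, the conjectured lower bound is positive, and there is a queue with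
these moments which has a stationary workload law and whose mean waiting time is zero in every
stationary law; so both the inequality (a) and the formula (b) for the infimum fail. -/
theorem result (k : ℕ) [NeZero k] (hk : 2 ≤ k) (ET ES ET2 : ℝ) (hET : 0 < ET)
    (h1 : 1 - 1 / (k : ℝ) < ES / (k * ET)) (h2 : ES / (k * ET) < 1) (hT : ET ^ 2 ≤ ET2) :
    (2 * k - 1) * ES * ET - k * (k - 1) * ET ^ 2 < k * ES * ET ∧
    ∀ ES2 : ℝ, (2 * k - 1) * ES * ET - k * (k - 1) * ET ^ 2 < ES2 → ES2 < k * ES * ET →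
      Admissible ET ES ET2 ES2 ∧
      0 < conjRHS k ET ES ES2 ∧
      (∃ σ τ : Measure ℝ, HasMoments σ ES ES2 ∧ HasMoments τ ET ET2 ∧
        (∃ π : Measure (Fin k → ℝ), IsStationary σ τ π) ∧
        ∀ π : Measure (Fin k → ℝ), IsStationary σ τ π → meanWait π = 0) ∧
      ¬ PartA k ET ES ET2 ES2 ∧ ¬ PartB k ET ES ET2 ES2 := by
  have hk2 : (2 : ℝ) ≤ k := by exact_mod_cast hk
  have hkpos : (0 : ℝ) < k := by linarith
  have hkET : 0 < k * ET := by positivity
  have hlow : (k - 1) * ET < ES := by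
    rw [lt_div_iff₀ hkET] at h1
    have : (1 - 1 / (k : ℝ)) * (k * ET) = (k - 1) * ET := by field_simp
    linarith
  have hup : ES < k * ET := by
    rw [div_lt_one hkET] at h2
    exact h2
  have hES : 0 < ES := by
    have : 0 ≤ ((k : ℝ) - 1) * ET := mul_nonneg (by linarith) hET.le
    linarith
  have hint : (2 * k - 1) * ES * ET - k * (k - 1) * ET ^ 2 < k * ES * ET := by
    have : 0 < ((k : ℝ) - 1) * ET * (k * ET - ES) :=
      mul_pos (mul_pos (by linarith) hET) (by linarith)
    nlinarith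
  refine ⟨hint, fun ES2 hlo hhi => ?_⟩
  have hS : ES ^ 2 < ES2 := by
    have : 0 < (k * ET - ES) * (ES - (k - 1) * ET) := mul_pos (by linarith) (by linarith)
    nlinarith
  have hfac : 0 < 1 - k * (1 - ES / (k * ET)) := by
    have : k * (ES / (k * ET)) = ES / ET := by field_simp
    have h3 : (k - 1) < ES / ET := by
      rw [lt_div_iff₀ hET]; exact hlow
    nlinarith
  have hpos : 0 < conjRHS k ET ES ES2 := by
    unfold conjRHS
    refine mul_pos hfac (lt_max_of_lt_left ?_)
    linarith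
  obtain ⟨σ, τ, mS, mT, ⟨π, hπ⟩, hall⟩ := exists_zero_wait k ET ES ET2 ES2 hET hES hT hS hhi
  have hmem : (0 : ℝ≥0∞) ∈ waitValues k ET ES ET2 ES2 :=
    ⟨σ, τ, π, mS, mT, hπ, (hall π hπ).symm⟩
  have hR : 0 < ENNReal.ofReal (conjRHS k ET ES ES2) := ENNReal.ofReal_pos.mpr hpos
  refine ⟨⟨hET, hES, hT, hS.le⟩, hpos, ⟨σ, τ, mS, mT, ⟨π, hπ⟩, hall⟩, ?_, ?_⟩
  · intro hA
    have := hA 0 hmem
    simp only [conjLHS, mul_zero] at this
    exact absurd this (not_le.mpr hR)
  · intro hB
    have h4 : sInf (conjLHS k ET ES '' waitValues k ET ES ET2 ES2) ≤ 0 := by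
      refine sInf_le ⟨0, hmem, ?_⟩
      simp [conjLHS]
    rw [hB] at h4
    exact absurd h4 (not_le.mpr hR)

end Pool.Agent.Results.MP_97409a_pr.BoundFails
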